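import Pool.Agent.W845.PM.Base

set_option autoImplicit false

open Filter Topology Set
open Pool.Agent.W845.PM

namespace Pool.Agent.W368.PM

/-- the double iterate -/
noncomputable def ph (c t : ℝ) : ℝ := Real.exp (-(c * Real.exp (-(c * t))))

noncomputable def G1 (c t : ℝ) : ℝ := ph c t + Real.exp (-(c * t)) + c * t * Real.exp (-(c * t))

lemma gf_exp (c t : ℝ) : gf c (Real.exp (-(c * t))) = G1 c t := by
  unfold gf G1 ph
  rw [Real.log_exp]
  ring

lemma continuous_gf (c : ℝ) : Continuous (gf c) := by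
  unfold gf
  have h := Real.continuous_mul_log
  exact ((Real.continuous_exp.comp (continuous_const.mul continuous_id).neg).add
    continuous_id).sub h

lemma bdd (c : ℝ) : BddAbove (gf c '' Icc (0 : ℝ) 1) :=
  isCompact_Icc.bddAbove_image (continuous_gf c).continuousOn

theorem an1 : S_AN1 := by
  intro c t hc ht
  have htpos : 0 < t := by rw [ht]; exact Real.exp_pos _
  have h1 : val c t = gf c (Real.exp (-(c * t))) := by
    rw [gf_exp]
    unfold val G1 ph
    rw [← ht]
  rw [h1]
  refine le_csSup (bdd c) ⟨_, ⟨(Real.exp_pos _).le, ?_⟩, rfl⟩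
  rw [Real.exp_le_one_iff]
  have : 0 < c * t := mul_pos hc htpos
  linarith

lemma hasDerivAt_e (c t : ℝ) :
    HasDerivAt (fun t => Real.exp (-(c * t))) (-(c * Real.exp (-(c * t)))) t := by
  have h1 : HasDerivAt (fun t : ℝ => -(c * t)) (-c) t := by
    have h := ((hasDerivAt_id t).const_mul (-c))
    have e1 : (fun y : ℝ => -c * id y) = fun t : ℝ => -(c * t) := by
      funext y; simp
    rw [e1, mul_one] at h
    exact h
  have h2 := h1.exp
  have e : Real.exp (-(c * t)) * -c = -(c * Real.exp (-(c * t))) := by ring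
  rw [e] at h2
  exact h2

lemma hasDerivAt_ph (c t : ℝ) :
    HasDerivAt (ph c) (c * (c * Real.exp (-(c * t)) * ph c t)) t := by
  have h1 := ((hasDerivAt_e c t).const_mul (-c))
  have e1 : (fun y : ℝ => -c * Real.exp (-(c * y))) = fun y : ℝ => -(c * Real.exp (-(c * y))) := by
    funext y; ring
  rw [e1] at h1
  have h2 := h1.exp
  have e : Real.exp (-(c * Real.exp (-(c * t)))) * (-c * -(c * Real.exp (-(c * t)))) =
      c * (c * Real.exp (-(c * t)) * ph c t) := by
    unfold ph; ring
  rw [e] at h2
  exact h2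

lemma hasDerivAt_G1 (c t : ℝ) :
    HasDerivAt (G1 c) (c ^ 2 * Real.exp (-(c * t)) * (ph c t - t)) t := by
  have h1 := hasDerivAt_ph c t
  have h2 := hasDerivAt_e c t
  have h3 : HasDerivAt (fun t : ℝ => c * t) c t := by
    have := (hasDerivAt_id t).const_mul c
    simpa using this
  have h4 := (h1.add h2).add (h3.mul h2)
  have e : c * (c * Real.exp (-(c * t)) * ph c t) + -(c * Real.exp (-(c * t))) +
      (c * Real.exp (-(c * t)) + c * t * -(c * Real.exp (-(c * t)))) =
      c ^ 2 * Real.exp (-(c * t)) * (ph c t - t) := by ring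
  rw [e] at h4
  exact h4

lemma continuous_ph (c : ℝ) : Continuous (ph c) :=
  continuous_iff_continuousAt.2 fun t => (hasDerivAt_ph c t).continuousAt

lemma continuous_G1 (c : ℝ) : Continuous (G1 c) :=
  continuous_iff_continuousAt.2 fun t => (hasDerivAt_G1 c t).continuousAt

lemma G1_mono {c a b : ℝ} (hab : a ≤ b) (h : ∀ t ∈ Icc a b, t ≤ ph c t) : G1 c a ≤ G1 c b := by
  have hm : MonotoneOn (G1 c) (Icc a b) := by
    refine monotoneOn_of_deriv_nonneg (convex_Icc a b) (continuous_G1 c).continuousOn
      (fun t _ => (hasDerivAt_G1 c t).differentiableAt.differentiableWithinAt) ?_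
    intro t ht
    rw [(hasDerivAt_G1 c t).deriv]
    have := h t (interior_subset ht)
    have h2 : 0 ≤ ph c t - t := by linarith
    positivity
  exact hm ⟨le_rfl, hab⟩ ⟨hab, le_rfl⟩ hab

lemma G1_anti {c a b : ℝ} (hab : a ≤ b) (h : ∀ t ∈ Icc a b, ph c t ≤ t) : G1 c b ≤ G1 c a := by
  have hm : AntitoneOn (G1 c) (Icc a b) := by
    refine antitoneOn_of_deriv_nonpos (convex_Icc a b) (continuous_G1 c).continuousOn
      (fun t _ => (hasDerivAt_G1 c t).differentiableAt.differentiableWithinAt) ?_
    intro t ht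
    rw [(hasDerivAt_G1 c t).deriv]
    have := h t (interior_subset ht)
    have h2 : ph c t - t ≤ 0 := by linarith
    exact mul_nonpos_of_nonneg_of_nonpos (by positivity) h2
  exact hm ⟨le_rfl, hab⟩ ⟨hab, le_rfl⟩ hab

/-- below the smallest root -/
lemma below {c t0 : ℝ} (h : SmallRoot c t0) {t : ℝ} (ht : t ≤ t0) : t ≤ ph c t := by
  by_contra hcon
  push Not at hcon
  have hpos : 0 < ph c t := Real.exp_pos _
  have ht0 : 0 < t := hpos.trans hcon
  have hc : ContinuousOn (fun x => ph c x - x) (Icc 0 t) :=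
    ((continuous_ph c).sub continuous_id).continuousOn
  have h1 := intermediate_value_Icc' ht0.le hc
  have h2 : (0 : ℝ) ∈ Icc (ph c t - t) (ph c 0 - 0) :=
    ⟨by linarith, by rw [sub_zero]; exact (Real.exp_pos _).le⟩
  obtain ⟨x, ⟨hx0, hxt⟩, hx⟩ := h1 h2
  have hx' : x = ph c x := by
    have : ph c x - x = 0 := hx
    linarith
  have h3 := h.2 x hx'
  have h4 : x = t := le_antisymm hxt (ht.trans h3)
  rw [h4] at hx'
  linarith

lemma u_exp_le (u : ℝ) : u * Real.exp (-u) ≤ Real.exp (-1) := by
  have h1 := Real.add_one_le_exp (u - 1)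
  have h2 : u ≤ Real.exp (u - 1) := by linarith
  calc u * Real.exp (-u) ≤ Real.exp (u - 1) * Real.exp (-u) := by gcongr
    _ = Real.exp (-1) := by rw [← Real.exp_add]; congr 1; ring

/-- `u e^{-u}` is antitone on `[1,∞)` -/
lemma u_exp_anti {u v : ℝ} (hu : 1 ≤ u) (huv : u ≤ v) :
    v * Real.exp (-v) ≤ u * Real.exp (-u) := by
  have h1 := Real.add_one_le_exp (v - u)
  have h2 : v ≤ u * Real.exp (v - u) := by nlinarith
  calc v * Real.exp (-v) ≤ u * Real.exp (v - u) * Real.exp (-v) := by gcongr
    _ = u * Real.exp (-u) := by rw [mul_assoc, ← Real.exp_add]; congr 2; ring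

lemma deriv_ph (c t : ℝ) : deriv (ph c) t =
    c * (c * Real.exp (-(c * t)) * Real.exp (-(c * Real.exp (-(c * t))))) := by
  rw [(hasDerivAt_ph c t).deriv]
  rfl

/-- small `c`: above the root -/
lemma above_small {c t0 : ℝ} (hc : 0 < c) (hce : c ≤ Real.exp 1) (h : SmallRoot c t0) {t : ℝ}
    (ht : t0 ≤ t) : ph c t ≤ t := by
  have hm : AntitoneOn (fun x => ph c x - x) univ := by
    refine antitoneOn_of_deriv_nonpos convex_univ ((continuous_ph c).sub
      continuous_id).continuousOn (fun t _ => ((hasDerivAt_ph c t).sub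
        (hasDerivAt_id t)).differentiableAt.differentiableWithinAt) ?_
    intro x _
    have hd : HasDerivAt (fun x => ph c x - x) (c * (c * Real.exp (-(c * x)) * ph c x) - 1) x :=
      (hasDerivAt_ph c x).sub (hasDerivAt_id x)
    rw [hd.deriv]
    have h1 := u_exp_le (c * Real.exp (-(c * x)))
    have h2 : c * (c * Real.exp (-(c * x)) * ph c x) ≤ Real.exp 1 * Real.exp (-1) := by
      refine mul_le_mul hce h1 ?_ (Real.exp_pos _).le
      have : 0 < ph c x := Real.exp_pos _
      positivity
    rw [← Real.exp_add] at h2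
    norm_num at h2
    linarith
  have h1 := hm (mem_univ t0) (mem_univ t) ht
  have h2 : ph c t0 - t0 = 0 := by
    have := h.1
    unfold ph
    linarith
  simp only at h1
  linarith

/-- tangent line inequality -/
lemma gf_le_G1 {c s : ℝ} (hs : 0 < s) : gf c s ≤ G1 c s := by
  have h1 := Real.add_one_le_exp (-(c * Real.exp (-(c * s))) - Real.log s)
  have h2 : Real.exp (-(c * Real.exp (-(c * s))) - Real.log s) = ph c s / s := by
    rw [Real.exp_sub, Real.exp_log hs]
    rfl
  rw [h2, le_div_iff₀ hs] at h1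
  unfold gf G1
  nlinarith

theorem an2 : S_AN2 := by
  intro c t hc ht
  have hval : val c t = G1 c t := by
    unfold val G1 ph
    rw [← ht.1]
  have htpos : 0 < t := by rw [ht.1]; exact Real.exp_pos _
  rw [hval]
  -- it is enough to treat s > 0
  suffices hpos : ∀ s ∈ Ioc (0 : ℝ) 1, gf c s ≤ G1 c t by
    refine csSup_le ⟨_, 0, ⟨le_rfl, zero_le_one⟩, rfl⟩ ?_
    rintro _ ⟨s, hs, rfl⟩
    have hcl : IsClosed {s : ℝ | gf c s ≤ G1 c t} :=
      isClosed_le (continuous_gf c) continuous_const
    have h1 : closure (Ioc (0 : ℝ) 1) ⊆ {s : ℝ | gf c s ≤ G1 c t} :=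
      hcl.closure_subset_iff.2 hpos
    rw [closure_Ioc (by norm_num : (0 : ℝ) ≠ 1)] at h1
    exact h1 hs
  -- change of variables
  have hcv : ∀ s ∈ Ioc (0 : ℝ) 1, 0 ≤ -Real.log s / c ∧ gf c s = G1 c (-Real.log s / c) := by
    intro s hs
    refine ⟨div_nonneg (by have := Real.log_nonpos hs.1.le hs.2; linarith) hc.le, ?_⟩
    rw [← gf_exp]
    congr 1
    have : -(c * (-Real.log s / c)) = Real.log s := by field_simp
    rw [this, Real.exp_log hs.1]
  have hlow : ∀ T : ℝ, T ≤ t → G1 c T ≤ G1 c t := fun T hT =>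
    G1_mono hT fun x hx => below ht hx.2
  rcases le_or_gt c (Real.exp 1) with hce | hce
  · intro s hs
    obtain ⟨h1, h2⟩ := hcv s hs
    rw [h2]
    rcases le_total (-Real.log s / c) t with h3 | h3
    · exact hlow _ h3
    · exact G1_anti h3 fun x hx => above_small hc hce ht hx.1
  · -- the fixed point
    obtain ⟨t0, ht0, ht01⟩ : ∃ t0 : ℝ, 0 < t0 ∧ t0 = Real.exp (-(c * t0)) := by
      have hcont : ContinuousOn (fun x => Real.exp (-(c * x)) - x) (Icc 0 1) := by
        apply Continuous.continuousOn
        fun_prop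
      have h1 := intermediate_value_Icc' (zero_le_one) hcont
      have h2 : (0 : ℝ) ∈ Icc (Real.exp (-(c * 1)) - 1) (Real.exp (-(c * 0)) - 0) := by
        constructor
        · have : Real.exp (-(c * 1)) ≤ 1 := Real.exp_le_one_iff.2 (by linarith)
          linarith
        · have := Real.exp_pos (-(c * 0))
          linarith
      obtain ⟨x, -, hx⟩ := h1 h2
      have hx' : x = Real.exp (-(c * x)) := by
        have : Real.exp (-(c * x)) - x = 0 := hx
        linarith
      exact ⟨x, by rw [hx']; exact Real.exp_pos _, hx'⟩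
    have hct : 1 < c * t0 := by
      by_contra hcon
      push Not at hcon
      have h1 : t0 * Real.exp (c * t0) = 1 := by
        have : Real.exp (-(c * t0)) * Real.exp (c * t0) = 1 := by
          rw [← Real.exp_add]; simp
        rw [← ht01] at this
        exact this
      have h2 : c = c * t0 * Real.exp (c * t0) := by
        rw [mul_assoc, h1, mul_one]
      have h3 : c * t0 * Real.exp (c * t0) ≤ 1 * Real.exp 1 :=
        mul_le_mul hcon (Real.exp_le_exp.2 hcon) (Real.exp_pos _).le zero_le_one
      rw [one_mul, ← h2] at h3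
      linarith
    have hph0 : ph c t0 = t0 := by
      unfold ph
      rw [← ht01, ← ht01]
    have htt0 : t ≤ t0 := ht.2 t0 hph0.symm
    -- convexity
    have hconv : ConvexOn ℝ (Iic t0) (ph c) := by
      refine MonotoneOn.convexOn_of_deriv (convex_Iic t0) (continuous_ph c).continuousOn
        (fun x _ => (hasDerivAt_ph c x).differentiableAt.differentiableWithinAt) ?_
      intro x hx y hy hxy
      have hy' : y ≤ t0 := mem_Iic.1 (interior_subset hy)
      rw [deriv_ph, deriv_ph]
      refine mul_le_mul_of_nonneg_left ?_ hc.le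
      have e1 : Real.exp (-(c * y)) ≤ Real.exp (-(c * x)) :=
        Real.exp_le_exp.2 (by nlinarith)
      have e2 : t0 ≤ Real.exp (-(c * y)) := by
        calc t0 = Real.exp (-(c * t0)) := ht01
          _ ≤ Real.exp (-(c * y)) := Real.exp_le_exp.2 (by nlinarith)
      exact u_exp_anti (by nlinarith) (mul_le_mul_of_nonneg_left e1 hc.le)
    have hmid : ∀ x ∈ Icc t t0, ph c x ≤ x := by
      intro x hx
      rcases eq_or_lt_of_le htt0 with he | hlt
      · have : x = t0 := le_antisymm hx.2 (he ▸ hx.1)
        rw [this, hph0]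
      · have hd : 0 < t0 - t := by linarith
        have h1 := hconv.2 (mem_Iic.2 htt0) (mem_Iic.2 le_rfl)
          (div_nonneg (by linarith [hx.2] : 0 ≤ t0 - x) hd.le)
          (div_nonneg (by linarith [hx.1] : 0 ≤ x - t) hd.le)
          (by field_simp; ring)
        simp only [smul_eq_mul] at h1
        have h2 : (t0 - x) / (t0 - t) * t + (x - t) / (t0 - t) * t0 = x := by
          field_simp
          ring
        have h3 : ph c t = t := ht.1.symm
        rw [h2, hph0, h3, h2] at h1
        exact h1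
    have hall : ∀ T : ℝ, T ≤ t0 → G1 c T ≤ G1 c t := by
      intro T hT
      rcases le_total T t with h3 | h3
      · exact hlow _ h3
      · exact G1_anti h3 fun x hx => hmid x ⟨hx.1, hx.2.trans hT⟩
    intro s hs
    rcases le_total s t0 with h3 | h3
    · exact (gf_le_G1 hs.1).trans (hall s h3)
    · obtain ⟨h1, h2⟩ := hcv s hs
      rw [h2]
      apply hall
      rw [div_le_iff₀ hc]
      have h4 : Real.log t0 ≤ Real.log s := Real.log_le_log ht0 h3
      have h5 : Real.log t0 = -(c * t0) := by
        conv_lhs => rw [ht01]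
        exact Real.log_exp _
      linarith

end Pool.Agent.W368.PM
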